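import Pool.Agent.W973.IP.Defs

/-! The relation between the parameters of Fritz John points with `v = c`. -/

set_option autoImplicit false

open Pool.Agent.W973.IP

namespace Pool.Agent.W891.IP.PAR1

section bd

variable {ι : Type}

theorem bd_coord (i : ι) : BD ℚ 1 (fun y : ι → ℝ => y i) := by
  classical
  refine ⟨MvPolynomial.X i, fun j => ?_, fun y => by simp⟩
  rw [MvPolynomial.degreeOf_X]
  split_ifs <;> omega

theorem bd_neg (i : ι) : BD ℚ 1 (fun y : ι → ℝ => - y i) := by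
  classical
  refine ⟨MvPolynomial.C (-1) * MvPolynomial.X i, fun j => ?_, fun y => by simp⟩
  refine (MvPolynomial.degreeOf_C_mul_le _ _ _).trans ?_
  rw [MvPolynomial.degreeOf_X]
  split_ifs <;> omega

theorem bd_one : BD ℚ 1 (fun _ : ι → ℝ => (1 : ℝ)) := by
  refine ⟨MvPolynomial.C 1, fun j => ?_, fun y => by simp⟩
  rw [MvPolynomial.degreeOf_C]
  omega

theorem bd_zero : BD ℚ 1 (fun _ : ι → ℝ => (0 : ℝ)) := by
  refine ⟨MvPolynomial.C 0, fun j => ?_, fun y => by simp⟩
  rw [MvPolynomial.degreeOf_C]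
  omega

theorem bd_add {f g : (ι → ℝ) → ℝ} (hf : BD ℚ 1 f) (hg : BD ℚ 1 g) :
    BD ℚ 1 (fun y => f y + g y) := by
  obtain ⟨p, hp, hp'⟩ := hf
  obtain ⟨q, hq, hq'⟩ := hg
  exact ⟨p + q, fun i => (MvPolynomial.degreeOf_add_le i p q).trans (max_le (hp i) (hq i)),
    fun y => by
      show f y + g y = _
      rw [map_add, hp', hq']⟩

theorem bd_sum {κ : Type} (S : Finset κ) (f : κ → (ι → ℝ) → ℝ) (h : ∀ k, BD ℚ 1 (f k)) :
    BD ℚ 1 (fun y => ∑ k ∈ S, f k y) := by
  classical
  induction S using Finset.induction_on with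
  | empty => simpa using bd_zero
  | insert a S ha ih =>
    simp only [Finset.sum_insert ha]
    exact bd_add (h a) ih

end bd

/-- the solved feature -/
def sol {n : ℕ} (r : ℕ) (s : Fin (MM n)) : Ft n → Option (JJ n (r + 1))
  | Sum.inl l => some (Sum.inl l)
  | Sum.inr (o, s', d) =>
    if h : s' = s ∧ (d : ℕ) < 2 * (r + 1) then
      some (Sum.inr (o, (⟨(d : ℕ) / 2, by omega⟩, ⟨(d : ℕ) % 2, by omega⟩)))
    else none

theorem sol_some {n r : ℕ} (hr : r + 1 ≤ n + 1) (s : Fin (MM n)) (a : Ft n → ℝ) (t : Ft n)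
    (J : JJ n (r + 1)) (h : sol r s t = some J) : xsol hr s a J = a t := by
  rcases t with l | ⟨o, s', d⟩
  · simp only [sol, Option.some.injEq] at h
    subst h
    rfl
  · simp only [sol] at h
    split_ifs at h with h'
    · simp only [Option.some.injEq] at h
      subst h
      obtain ⟨rfl, h2⟩ := h'
      simp only [xsol]
      congr 4
      apply Fin.ext
      simp only [dg]
      omega

theorem sol_none {n r : ℕ} (s : Fin (MM n)) (t : Ft n) (h : sol r s t = none) :
    ∃ t', t = Sum.inr t' ∧ uns (s : ℕ) (r + 1) t' := by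
  rcases t with l | ⟨o, s', d⟩
  · simp [sol] at h
  · refine ⟨_, rfl, ?_⟩
    simp only [sol] at h
    split_ifs at h with h'
    unfold uns
    rintro ⟨h1, h2⟩
    exact h' ⟨Fin.ext h1, h2⟩

/-- the determinant -/
noncomputable def Qd {n r : ℕ} (hr : r + 1 ≤ n + 1) (s : Fin (MM n)) (y : Option (Ft n) → ℝ) : ℝ :=
  (mat (s : ℕ) (y none) (pu (fun t => y (some t))) (pw hr s (fun t => y (some t)))).det

/-- the numerators -/
noncomputable def Nd {n r : ℕ} (P : MvPolynomial (Fin n ⊕ Fin n) ℚ) (hr : r + 1 ≤ n + 1)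
    (s : Fin (MM n)) (J : JJ n (r + 1)) (y : Option (Ft n) → ℝ) : ℝ :=
  ((mat (s : ℕ) (y none) (pu (fun t => y (some t)))
    (pw hr s (fun t => y (some t)))).adjugate.mulVec
    (rhs P (s : ℕ) (pv hr s (fun t => y (some t))) (y none) (pv hr s (fun t => y (some t)))
      (pu (fun t => y (some t))) (pw hr s (fun t => y (some t))) (pl hr s (fun t => y (some t)))
      (fun t => y (some (Sum.inr t))) (pz hr s (fun t => y (some t))))) J

/-- the functions -/
noncomputable def Fn {n r : ℕ} (P : MvPolynomial (Fin n ⊕ Fin n) ℚ) (hr : r + 1 ≤ n + 1)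
    (s : Fin (MM n)) : Ft n ⊕ Fin 2 → (Option (Ft n) → ℝ) → ℝ :=
  Sum.elim (fun t => (sol r s t).elim (fun y => y (some t) * Qd hr s y) (fun J => Nd P hr s J))
    ![fun y => pv hr s (fun t => y (some t)) * Qd hr s y, fun y => y none * Qd hr s y]

theorem bd_pl {n r : ℕ} (hr : r + 1 ≤ n + 1) (s : Fin (MM n)) (i : Fin (r + 1)) :
    BD ℚ 1 (fun y : Option (Ft n) → ℝ => pl hr s (fun t => y (some t)) i) := by
  unfold pl
  by_cases hi : i = 0
  · simp only [hi, if_true]
    have h : (fun y : Option (Ft n) → ℝ => 1 - ∑ k : Fin r, y (some (sl hr s none k.succ 0))) =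
        fun y => 1 + ∑ k : Fin r, - y (some (sl hr s none k.succ 0)) := by
      funext y
      rw [Finset.sum_neg_distrib]
      ring
    rw [h]
    exact bd_add bd_one (bd_sum _ _ fun k => bd_neg _)
  · simp only [hi, if_false]
    exact bd_coord _

theorem bd_Fn {n r : ℕ} (hBDG : S_BDG) (P : MvPolynomial (Fin n ⊕ Fin n) ℚ)
    (hP : P.totalDegree ≤ 4) (hr : r + 1 ≤ n + 1) (s : Fin (MM n)) :
    (∀ x, BD ℚ (dd n) (Fn P hr s x)) ∧ BD ℚ (dd n) (Qd (n := n) (r := r) hr s) := by
  obtain ⟨h1, h2, h3⟩ := hBDG (Option (Ft n)) n (r + 1) P hP hr (s : ℕ)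
    (fun y => pv hr s (fun t => y (some t))) (fun y => y none)
    (fun y => pv hr s (fun t => y (some t))) (fun l y => pu (fun t => y (some t)) l)
    (fun i j y => pw hr s (fun t => y (some t)) i j) (fun i y => pl hr s (fun t => y (some t)) i)
    (fun t y => y (some (Sum.inr t))) (fun o i y => pz hr s (fun t => y (some t)) o i)
    (bd_coord _) (bd_coord _) (bd_coord _) (fun l => bd_coord _) (fun i j => bd_coord _)
    (fun i => bd_pl hr s i) (fun t => bd_coord _) (fun o i => bd_coord _)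
  refine ⟨?_, h1⟩
  rintro (t | i)
  · simp only [Fn, Sum.elim_inl]
    cases h : sol r s t with
    | none => exact h3 _ (bd_coord _)
    | some J => exact h2 J
  · simp only [Fn, Sum.elim_inr]
    fin_cases i
    · exact h3 _ (bd_coord _)
    · exact h3 _ (bd_coord _)

/-- values of the slots -/
def sv {n r : ℕ} (c : ℝ) (w : Fin (r + 1) → Vec n) (lam : Fin (r + 1) → ℝ)
    (z : Option (Fin n) → Fin (r + 1) → ℝ) (o : Option (Fin n)) (i : Fin (r + 1))
    (ε : Fin 2) : ℝ :=
  if ε = 0 then o.elim (if i = 0 then c else lam i) (fun j => w i j) else z o i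

/-- the point -/
def yv {n r : ℕ} (s : Fin (MM n)) (e : ℝ) (u : Vec n)
    (g : Option (Fin n) → Fin (r + 1) → Fin 2 → ℝ) (a : Ft n → ℝ) : Option (Ft n) → ℝ
  | none => e
  | some (Sum.inl l) => u l
  | some (Sum.inr (o, s', d)) =>
    if h : s' = s ∧ (d : ℕ) < 2 * (r + 1) then
      g o ⟨(d : ℕ) / 2, by omega⟩ ⟨(d : ℕ) % 2, by omega⟩
    else a (Sum.inr (o, s', d))

theorem yv_sl {n r : ℕ} (hr : r + 1 ≤ n + 1) (s : Fin (MM n)) (e : ℝ) (u : Vec n)
    (g : Option (Fin n) → Fin (r + 1) → Fin 2 → ℝ) (a : Ft n → ℝ) (o : Option (Fin n))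
    (i : Fin (r + 1)) (ε : Fin 2) : yv s e u g a (some (sl hr s o i ε)) = g o i ε := by
  have hi := i.2
  have hε := ε.2
  unfold sl
  simp only [yv]
  rw [dif_pos ⟨trivial, by omega⟩]
  have k1 : (2 * (i : ℕ) + (ε : ℕ)) / 2 = i := by omega
  have k2 : (2 * (i : ℕ) + (ε : ℕ)) % 2 = ε := by omega
  simp only [k1, k2, Fin.eta]

theorem yv_uns {n r : ℕ} (s : Fin (MM n)) (e : ℝ) (u : Vec n)
    (g : Option (Fin n) → Fin (r + 1) → Fin 2 → ℝ) (a : Ft n → ℝ) (t : Tx n)
    (h : uns (s : ℕ) (r + 1) t) : yv s e u g a (some (Sum.inr t)) = a (Sum.inr t) := by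
  obtain ⟨o, s', d⟩ := t
  simp only [yv]
  rw [dif_neg]
  rintro ⟨h1, h2⟩
  exact h ⟨by rw [h1], h2⟩

theorem rhs_congr {n r : ℕ} (P : MvPolynomial (Fin n ⊕ Fin n) ℚ) (s : ℕ) (c e v : ℝ)
    (u : Vec n) (w : Fin r → Vec n) (lam : Fin r → ℝ) (a a' : Tx n → ℝ)
    (z : Option (Fin n) → Fin r → ℝ) (h : ∀ t, uns s r t → a t = a' t) :
    rhs P s c e v u w lam a z = rhs P s c e v u w lam a' z := by
  funext J
  rcases J with l | ⟨o, i, ε⟩
  · rfl
  · rcases o with _ | j
    · simp only [rhs]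
      split_ifs
      · have h' : ∀ t : Tx n, (if uns s r t then a t *
            (Lf (t.2.1 : ℕ) (w i) ^ (t.2.2 : ℕ) * ow (w i) t.1) else 0) =
            (if uns s r t then a' t *
            (Lf (t.2.1 : ℕ) (w i) ^ (t.2.2 : ℕ) * ow (w i) t.1) else 0) := by
          intro t
          split_ifs with ht
          · rw [h t ht]
          · rfl
        simp only [h']
      · rfl
    · simp only [rhs]
      split_ifs
      · have h' : ∀ t : Tx n, (if uns s r t then a t *
            (((t.2.2 : ℕ) : ℝ) * Lf (t.2.1 : ℕ) (w i) ^ ((t.2.2 : ℕ) - 1) *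
              (((t.2.1 : ℕ) : ℝ) ^ (j : ℕ)) * ow (w i) t.1 +
              Lf (t.2.1 : ℕ) (w i) ^ (t.2.2 : ℕ) * (if t.1 = some j then 1 else 0)) else 0) =
            (if uns s r t then a' t *
            (((t.2.2 : ℕ) : ℝ) * Lf (t.2.1 : ℕ) (w i) ^ ((t.2.2 : ℕ) - 1) *
              (((t.2.1 : ℕ) : ℝ) ^ (j : ℕ)) * ow (w i) t.1 +
              Lf (t.2.1 : ℕ) (w i) ^ (t.2.2 : ℕ) * (if t.1 = some j then 1 else 0)) else 0) := by
          intro t
          by_cases ht : uns s r t
          · rw [if_pos ht, if_pos ht, h t ht]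
          · rw [if_neg ht, if_neg ht]
        simp only [h']
      · rfl

theorem num (n : ℕ) : (dd n * (fa n + 2)) ^ (fa n + 1) ≤ 2 ^ bb n - 1 := by
  have h1 : dd n ≤ 2 ^ (b0 n + 1 + 30 * (n + 1) ^ 3) := by
    unfold dd NN
    have e0 : 2 ^ (b0 n + 1 + 30 * (n + 1) ^ 3) = 2 * 2 ^ b0 n * 2 ^ (30 * (n + 1) ^ 3) := by
      rw [pow_add, pow_add]
      ring
    rw [e0]
    have e1 : 1 ≤ 2 ^ b0 n := Nat.one_le_two_pow
    have e2 : 30 * (n + 1) ^ 3 + 1 ≤ 2 ^ (30 * (n + 1) ^ 3) := Nat.lt_two_pow_self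
    have e3 : 2 * 2 ^ b0 n * (30 * (n + 1) ^ 3 + 1) ≤ 2 * 2 ^ b0 n * 2 ^ (30 * (n + 1) ^ 3) :=
      Nat.mul_le_mul_left _ e2
    have e4 : 30 * (n + 1) ^ 3 ≤ 2 * 2 ^ b0 n * (30 * (n + 1) ^ 3) :=
      Nat.le_mul_of_pos_left _ (by positivity)
    have e5 : 2 * 2 ^ b0 n * (30 * (n + 1) ^ 3 + 1) =
        2 * 2 ^ b0 n * (30 * (n + 1) ^ 3) + 2 * 2 ^ b0 n := by ring
    rw [e5] at e3
    exact (Nat.add_le_add_left e4 _).trans ((Nat.add_comm _ _).le.trans e3)
  have h2 : fa n + 2 ≤ 2 ^ (fa n + 2) := Nat.lt_two_pow_self.le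
  have h3 : dd n * (fa n + 2) ≤ 2 ^ (b0 n + 30 * (n + 1) ^ 3 + fa n + 3) := by
    refine (Nat.mul_le_mul h1 h2).trans (le_of_eq ?_)
    rw [← pow_add]
    congr 1
    ring
  have h4 : (dd n * (fa n + 2)) ^ (fa n + 1) ≤
      2 ^ ((b0 n + 30 * (n + 1) ^ 3 + fa n + 3) * (fa n + 1)) := by
    rw [pow_mul]
    exact Nat.pow_le_pow_left h3 _
  have h5 : 2 ^ bb n = 2 ^ ((b0 n + 30 * (n + 1) ^ 3 + fa n + 3) * (fa n + 1)) * 2 := by
    unfold bb
    rw [pow_succ]
  have h6 : 1 ≤ 2 ^ ((b0 n + 30 * (n + 1) ^ 3 + fa n + 3) * (fa n + 1)) := Nat.one_le_two_pow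
  omega

theorem par1 (h1 : S_DC) (hIDX : S_IDX) (hMAT : S_MAT) (hSYS : S_SYS) (hBDG : S_BDG) :
    S_PAR1 := by
  intro n P hP r s hrn
  have hr : r + 1 ≤ n + 1 := by omega
  have hcard := (hIDX n).2.2
  obtain ⟨hF, hQ⟩ := bd_Fn hBDG P hP hr s
  have hc1 : Fintype.card (Option (Ft n)) = fa n + 1 := by
    rw [Fintype.card_option, hcard]
  have hc2 : Fintype.card (Ft n ⊕ Fin 2) = fa n + 2 := by
    rw [Fintype.card_sum, hcard, Fintype.card_fin]
  obtain ⟨R, hR0, hRd, hR⟩ := h1 ℚ (Option (Ft n)) (Ft n ⊕ Fin 2) (dd n) (2 ^ bb n - 1)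
    (Fn P hr s) (Qd hr s) (by omega)
    (by
      unfold dd NN
      have : 1 ≤ 2 ^ b0 n := Nat.one_le_two_pow
      omega)
    (by
      rw [hc1, hc2]
      exact num n) hF hQ
  refine ⟨R, hR0, fun x => ?_, ?_⟩
  · have h2 := hRd x
    have h3 : 1 ≤ 2 ^ bb n := Nat.one_le_two_pow
    omega
  · intro a c e u w lam he hFJ hinj
    have hsys := hSYS n (r + 1) hr P s a c e c u w lam hFJ
    have hdet := hMAT n (r + 1) (s : ℕ) e u w he hinj
    set z : Option (Fin n) → Fin (r + 1) → ℝ := fun o i =>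
      ∑ p : Fin (r + 1) × Fin 2, (dg p : ℝ) * Lf (s : ℕ) (w i) ^ (dg p - 1) *
        xsol hr s a (Sum.inr (o, p)) with hz
    set y : Option (Ft n) → ℝ := yv s e u (sv c w lam z) a with hy
    have e0 : y none = e := rfl
    have e1 : pu (fun t => y (some t)) = u := rfl
    have e2 : pw hr s (fun t => y (some t)) = w := by
      funext i j
      show y (some (sl hr s (some j) i 0)) = w i j
      rw [hy, yv_sl]
      simp [sv]
    have e3 : pl hr s (fun t => y (some t)) = lam := by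
      funext i
      unfold pl
      have hk : ∀ k : Fin (r + 1), k ≠ 0 → y (some (sl hr s none k 0)) = lam k := by
        intro k hk
        rw [hy, yv_sl]
        simp [sv, hk]
      by_cases hi : i = 0
      · rw [if_pos hi, hi]
        have h4 := hFJ.sum
        rw [Fin.sum_univ_succ] at h4
        have h5 : ∑ k : Fin r, y (some (sl hr s none k.succ 0)) = ∑ k : Fin r, lam k.succ :=
          Finset.sum_congr rfl fun k _ => hk _ (Fin.succ_ne_zero k)
        rw [h5]
        linarith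
      · rw [if_neg hi]
        exact hk i hi
    have e4 : pz hr s (fun t => y (some t)) = z := by
      funext o i
      show y (some (sl hr s o i 1)) = z o i
      rw [hy, yv_sl]
      simp [sv]
    have e5 : pv hr s (fun t => y (some t)) = c := by
      show y (some (sl hr s none 0 0)) = c
      rw [hy, yv_sl]
      simp [sv]
    have hQy : Qd hr s y = (mat (s : ℕ) e u w).det := by
      unfold Qd
      rw [e0, e1, e2]
    have hNy : ∀ J, Nd P hr s J y = (mat (s : ℕ) e u w).det * xsol hr s a J := by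
      intro J
      unfold Nd
      rw [e0, e1, e2, e3, e4, e5, rhs_congr P (s : ℕ) c e c u w lam
        (fun t => y (some (Sum.inr t))) (fun t => a (Sum.inr t)) z
        (fun t ht => yv_uns s e u _ a t ht), ← hsys, Matrix.mulVec_mulVec,
        Matrix.adjugate_mul, Matrix.smul_mulVec, Matrix.one_mulVec]
      rfl
    have hfin := hR y (by rw [hQy]; exact hdet)
    have hfun : (fun x => Fn P hr s x y / Qd hr s y) = Sum.elim a ![c, e] := by
      funext x
      rw [hQy]
      rcases x with t | i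
      · simp only [Fn, Sum.elim_inl]
        cases h : sol r s t with
        | none =>
          obtain ⟨t', rfl, ht'⟩ := sol_none s t h
          simp only [Option.elim]
          rw [hQy, hy, yv_uns s e u _ a t' ht']
          field_simp
        | some J =>
          simp only [Option.elim]
          rw [hNy, ← sol_some hr s a t J h]
          field_simp
      · simp only [Fn, Sum.elim_inr]
        fin_cases i
        · simp only [Fin.zero_eta, Matrix.cons_val_zero]
          rw [hQy, e5]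
          field_simp
        · simp only [Fin.mk_one, Matrix.cons_val_one]
          show y none * Qd hr s y / _ = e
          rw [hQy, e0]
          field_simp
    rw [hfun] at hfin
    exact hfin

end Pool.Agent.W891.IP.PAR1
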